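import Pool.Agent.helper96.PP2.SpecB

/-!
# pg:SOL (MP_655a6f): solvability when the trilinear form vanishes
-/

set_option autoImplicit false

namespace Pool.Agent.PP2

open Topology Matrix
open scoped commutatorElement

theorem SOL_row (hSUB : SUB_stmt) (hLTR : LTR_stmt) (hADM : ADM_stmt) (hCMN : CMN_stmt) :
    SOL_stmt := by
  intro p R _ _ _ _ _ _ J hp hp2 hS Γ hΓ hT
  have hA := hADM p R J hp hp2 hS Γ hΓ 1
  obtain ⟨_, hsub⟩ := hSUB p R J hp hp2 hS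
  obtain ⟨hE, _⟩ := hsub (Lc Γ 1) hA
  -- the brackets of two brackets vanish
  have hbb : ∀ A ∈ Lc Γ 1, ∀ B ∈ Lc Γ 1, ∀ C ∈ Lc Γ 1, ∀ D ∈ Lc Γ 1,
      Br (Br A B) (Br C D) = 0 := by
    intro A hA' B hB C hC D hD
    rw [Lib_I1 (Br A B) C D (Lib_trace_Br A B) (hA.tr C hC) (hA.tr D hD)]
    have h1 : Bf (Br A B) C • D = 0 := by
      rw [Lib_Bf_comm]
      exact hT C hC A hA' B hB D hD
    have h2 : Bf (Br A B) D • C = 0 := by
      rw [Lib_Bf_comm]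
      exact hT D hD A hA' B hB C hC
    rw [h1, h2, sub_zero, smul_zero]
  let V : Submodule R (M2 R) := Submodule.span R {Z | ∃ A ∈ Lc Γ 1, ∃ B ∈ Lc Γ 1, Z = Br A B}
  have hV1 : ∀ A ∈ Lc Γ 1, ∀ B ∈ Lc Γ 1, Br A B ∈ V := fun A hA' B hB =>
    Submodule.subset_span ⟨A, hA', B, hB, rfl⟩
  have hV2 : ∀ C ∈ Lc Γ 1, ∀ D ∈ Lc Γ 1, ∀ P ∈ V, Br P (Br C D) = 0 := by
    intro C hC D hD P hP
    refine Submodule.span_induction (p := fun P _ => Br P (Br C D) = 0) ?_ ?_ ?_ ?_ hP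
    · rintro _ ⟨A, hA', B, hB, rfl⟩
      exact hbb A hA' B hB C hC D hD
    · simp [Br]
    · intro x y _ _ hx hy
      rw [Lib_add_Br, hx, hy, add_zero]
    · intro a x _ hx
      rw [Lib_smul_Br, hx, smul_zero]
  have hV3 : ∀ P ∈ V, ∀ Q ∈ V, Br P Q = 0 := by
    intro P hP Q hQ
    refine Submodule.span_induction (p := fun Q _ => Br P Q = 0) ?_ ?_ ?_ ?_ hQ
    · rintro _ ⟨C, hC, D, hD, rfl⟩
      exact hV2 C hC D hD P hP
    · simp [Br]
    · intro x y _ _ hx hy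
      rw [Lib_Br_add, hx, hy, add_zero]
    · intro a x _ hx
      rw [Lib_Br_smul, hx, smul_zero]
  -- commutators of elements of E
  have hcomV : ∀ g ∈ ES J (Lc Γ 1), ∀ h ∈ ES J (Lc Γ 1), TH (g * h * g⁻¹ * h⁻¹) ∈ V := by
    intro g hg h hh
    obtain ⟨hg1, hg2⟩ := (hE g).1 hg
    obtain ⟨hh1, hh2⟩ := (hE h).1 hh
    rw [Lib_TH_comm J g h hg1 hh1]
    have hZ : Br (TH g) (TH h) ∈ Lc Γ 1 := hA.br _ hg2 _ hh2
    exact V.sub_mem (V.sub_mem (V.smul_mem _ (hV1 _ hg2 _ hh2)) (V.smul_mem _ (hV1 _ hZ _ hh2)))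
      (V.smul_mem _ (hV1 _ hZ _ hg2))
  have hcomm : ∀ k k' : GL (Fin 2) R, TH k ∈ V → TH k' ∈ V → k * k' = k' * k := by
    intro k k' hk hk'
    apply Units.ext
    rw [Units.val_mul, Units.val_mul, Lib_decomp k, Lib_decomp k']
    have hb := hV3 _ hk _ hk'
    rw [Br, sub_eq_zero] at hb
    simp only [add_mul, mul_add, Matrix.smul_mul, Matrix.mul_smul, one_mul, mul_one]
    rw [hb, smul_smul, smul_smul, mul_comm (ht k) (ht k')]
    abel
  -- commutators of elements of Γ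
  have hLL : ∀ g ∈ Γ, TH g ∈ LL Γ := by
    intro g hg
    apply AddSubgroup.le_topologicalClosure
    exact AddSubgroup.subset_closure ⟨g, hg, rfl⟩
  have hcE : ∀ g ∈ Γ, ∀ h ∈ Γ, g * h * g⁻¹ * h⁻¹ ∈ ES J (Lc Γ 1) := by
    intro g hg h hh
    rw [hE]
    refine ⟨hΓ (Γ.mul_mem (Γ.mul_mem (Γ.mul_mem hg hh) (Γ.inv_mem hg)) (Γ.inv_mem hh)), ?_⟩
    exact (hCMN p R J hp hp2 hS Γ hΓ 0 g (hΓ hg) h (hΓ hh) (hLL g hg) (hLL h hh)).2
  -- the derived series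
  have hD1 : derivedSeries Γ 1 ≤ (ES J (Lc Γ 1)).comap Γ.subtype := by
    rw [derivedSeries_succ, Subgroup.commutator_le]
    rintro ⟨g, hg⟩ _ ⟨h, hh⟩ _
    rw [Subgroup.mem_comap]
    exact hcE g hg h hh
  have hpair : ∀ g ∈ derivedSeries Γ 1, ∀ h ∈ derivedSeries Γ 1, ∀ g' ∈ derivedSeries Γ 1,
      ∀ h' ∈ derivedSeries Γ 1, ⁅g, h⁆ * ⁅g', h'⁆ = ⁅g', h'⁆ * ⁅g, h⁆ := by
    intro g hg h hh g' hg' h' hh'
    apply Subtype.ext
    exact hcomm _ _ (hcomV _ (hD1 hg) _ (hD1 hh)) (hcomV _ (hD1 hg') _ (hD1 hh'))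
  have hD2 : derivedSeries Γ 2 ≤ Subgroup.centralizer (derivedSeries Γ 2 : Set Γ) := by
    have e : derivedSeries Γ 2 = ⁅derivedSeries Γ 1, derivedSeries Γ 1⁆ := derivedSeries_succ Γ 1
    conv_lhs => rw [e]
    rw [Subgroup.commutator_le]
    intro g hg h hh
    rw [Subgroup.mem_centralizer_iff]
    have h2 : derivedSeries Γ 2 ≤ Subgroup.centralizer {⁅g, h⁆} := by
      rw [e, Subgroup.commutator_le]
      intro g' hg' h' hh'
      rw [Subgroup.mem_centralizer_singleton_iff]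
      exact hpair g' hg' h' hh' g hg h hh
    intro x hx
    exact Subgroup.mem_centralizer_singleton_iff.1 (h2 hx)
  have e3 : derivedSeries Γ 3 = ⁅derivedSeries Γ 2, derivedSeries Γ 2⁆ := derivedSeries_succ Γ 2
  rw [e3, Subgroup.commutator_eq_bot_iff_le_centralizer]
  exact hD2

end Pool.Agent.PP2
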